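import Pool.Agent.H32.SAB.TargetsT

/-!
# Row PTIC: totally isotropic subspaces of equivalent matrices
-/

set_option autoImplicit false

open Polynomial Matrix Pool.Agent.H32.SAB

namespace Pool.Agent.H81.SAB

theorem tic_fwd {F : Type*} [Field F] {n r : ℕ} (A C : Matrix (Fin n) (Fin n) F)
    (hC : C.det ≠ 0) (h : TI (Cᵀ * A * C) r) : TI A r := by
  obtain ⟨b, hb, hz⟩ := h
  have hinj : Function.Injective C.mulVec := by
    rw [Matrix.mulVec_injective_iff_isUnit, Matrix.isUnit_iff_isUnit_det]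
    exact isUnit_iff_ne_zero.2 hC
  refine ⟨fun i => C *ᵥ b i, ?_, fun i j => ?_⟩
  · exact hb.map' (Matrix.mulVecLin C) (LinearMap.ker_eq_bot.2 hinj)
  · rw [← hz i j, ← Matrix.mulVec_mulVec, ← Matrix.mulVec_mulVec,
      Matrix.dotProduct_mulVec (b i) Cᵀ, Matrix.vecMul_transpose]

theorem pf_TIC : T_TIC := by
  intro F _ n r A C hC
  refine ⟨tic_fwd A C hC, fun h => ?_⟩
  have hu : IsUnit C.det := isUnit_iff_ne_zero.2 hC
  refine tic_fwd (Cᵀ * A * C) C⁻¹ ?_ ?_
  · rw [Matrix.det_nonsing_inv]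
    simpa using hC
  · have h1 : (C⁻¹)ᵀ * (Cᵀ * A * C) * C⁻¹ = A := by
      rw [Matrix.transpose_nonsing_inv, Matrix.mul_assoc Cᵀ A C,
        Matrix.nonsing_inv_mul_cancel_left _ _ (by rwa [Matrix.det_transpose]),
        Matrix.mul_nonsing_inv_cancel_right _ _ hu]
    rw [h1]
    exact h

end Pool.Agent.H81.SAB
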