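import Pool.Agent.H32.SAB.TargetsT

/-!
# Row PSTI: Springer's theorem for totally isotropic subspaces
-/

set_option autoImplicit false

open Polynomial Matrix Pool.Agent.H32.SAB

namespace Pool.Agent.H81.SAB.STI

theorem qv_eq {R : Type*} [CommRing R] {n : ℕ} (A : Matrix (Fin n) (Fin n) R) (x : Fin n → R) :
    qv A x = x ⬝ᵥ A *ᵥ x := by
  unfold qv
  simp only [dotProduct, mulVec, Finset.mul_sum]
  refine Finset.sum_congr rfl fun i _ => Finset.sum_congr rfl fun j _ => ?_
  ring

theorem hyp_map {F L : Type*} [Field F] [Field L] (f : F →+* L) {n : ℕ}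
    (B : Matrix (Fin n) (Fin n) F) : (hyp B).map f = hyp (B.map f) := by
  ext i j
  unfold hyp
  simp only [Matrix.map_apply, Matrix.reindex_apply, Matrix.submatrix_apply]
  rcases finSumFinEquiv.symm i with a | a <;> rcases finSumFinEquiv.symm j with b | b
  · fin_cases a <;> fin_cases b <;> simp
  · simp
  · simp
  · simp

theorem pf_STI (hSPR : T_SPR) (hHYP : T_HYP) (hTIH : T_TIH) (hTIC : T_TIC) : T_STI := by
  intro F _ h2 p hp hodd n r
  induction r generalizing n with
  | zero =>
    intro A _ _ _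
    exact ⟨fun i => i.elim0, linearIndependent_empty_type, fun i => i.elim0⟩
  | succ r ih =>
    intro A hA hdet h
    have : Fact (Irreducible p) := ⟨hp⟩
    obtain ⟨b, hb, hz⟩ := h
    have hTI : TI (A.map (algebraMap F (AdjoinRoot p))) (r + 1) := ⟨b, hb, hz⟩
    have h1 : IsoM A (AdjoinRoot p) := by
      refine ⟨b 0, hb.ne_zero 0, ?_⟩
      rw [qv_eq]
      exact hz 0 0
    obtain ⟨x, hx, hx0⟩ := hSPR F n A p hp hodd h1
    rw [qv_eq] at hx0
    have hid : A.map (algebraMap F F) = A := by
      ext i j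
      simp
    rw [hid] at hx0
    obtain ⟨m, hm, B, C, hBs, hBd, hCd, hCA⟩ := hHYP F h2 n A hA hdet ⟨x, hx, hx0⟩
    subst hm
    have hre : Matrix.reindex (finCongr (rfl : 2 + m = 2 + m)) (finCongr rfl) (hyp B) = hyp B := by
      ext i j
      simp
    rw [hre] at hCA
    have h2L : (2 : AdjoinRoot p) ≠ 0 := by
      have h8 := (_root_.map_ne_zero (algebraMap F (AdjoinRoot p))).2 h2
      rwa [map_ofNat] at h8
    have hCL : (C.map (algebraMap F (AdjoinRoot p))).det ≠ 0 := by
      have h3 : (C.map (algebraMap F (AdjoinRoot p))).det =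
          algebraMap F (AdjoinRoot p) C.det := by
        rw [RingHom.map_det]
        rfl
      rw [h3]
      exact (_root_.map_ne_zero _).2 hCd
    have hCAL : (C.map (algebraMap F (AdjoinRoot p)))ᵀ * A.map (algebraMap F (AdjoinRoot p)) *
        C.map (algebraMap F (AdjoinRoot p)) = hyp (B.map (algebraMap F (AdjoinRoot p))) := by
      rw [← hyp_map, ← hCA, Matrix.map_mul, Matrix.map_mul, Matrix.transpose_map]
    have h4 := (hTIC (AdjoinRoot p) (2 + m) (r + 1) _ _ hCL).2 hTI
    rw [hCAL] at h4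
    have hBsL : (B.map (algebraMap F (AdjoinRoot p))).IsSymm := hBs.map _
    have h5 := (hTIH (AdjoinRoot p) h2L m r _ hBsL).1 h4
    have h6 : TI B r := ih m B hBs hBd h5
    have h7 := (hTIH F h2 m r B hBs).2 h6
    rw [← hCA] at h7
    exact (hTIC F (2 + m) (r + 1) A C hCd).1 h7

end Pool.Agent.H81.SAB.STI
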